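import Pool.Agent.R756.KT.Rec

/-!
Supports of functions of small hierarchical rank without combinatorial cubes.
-/

set_option autoImplicit false

namespace Pool.Agent.R756.KT

open Finset Pool.Agent.R756.TN

section

variable {ι α K : Type} [Fintype ι] [DecidableEq ι] [Fintype α] [DecidableEq α] [Field K]
  [DecidableEq K]

/-- `A` contains all the strings `fun i => if ε (lab i) then y i else x i`, where for every `j < t`
the strings `x` and `y` are different at some place with label `j` -/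
def HasCube {ι α : Type} (t : ℕ) (A : Set (ι → α)) : Prop :=
  ∃ (x y : ι → α) (lab : ι → ℕ), (∀ j, j < t → ∃ i, lab i = j ∧ x i ≠ y i) ∧
    ∀ ε : ℕ → Bool, (fun i => if ε (lab i) = true then y i else x i) ∈ A

omit [Fintype ι] [DecidableEq ι] [Fintype α] [DecidableEq α] in
lemma HasCube.mono {t : ℕ} {A B : Set (ι → α)} (h : HasCube t A) (hAB : A ⊆ B) : HasCube t B := by
  obtain ⟨x, y, lab, h1, h2⟩ := h
  exact ⟨x, y, lab, h1, fun ε => hAB (h2 ε)⟩

omit [Fintype ι] [DecidableEq ι] [Fintype α] [DecidableEq α] in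
lemma cube_one {A : Set (ι → α)} {x y : ι → α} (hx : x ∈ A) (hy : y ∈ A) (hxy : x ≠ y) :
    HasCube 1 A := by
  obtain ⟨i, hi⟩ := Function.ne_iff.1 hxy
  refine ⟨x, y, fun _ => 0, fun j hj => ⟨i, ?_, hi⟩, fun ε => ?_⟩
  · show 0 = j
    omega
  · cases h : ε 0
    · simpa [h] using hx
    · simpa [h] using hy

omit [Fintype ι] [Fintype α] [DecidableEq α] in
lemma cube_succ {t : ℕ} {A : Set (ι → α)} {P Q : Finset ι} {u e z0 : ι → α}
    (hPQ : Disjoint P Q) (hue : ∃ i ∈ P, u i ≠ e i)
    (h : HasCube t {z | (∀ i, i ∉ Q → z i = z0 i) ∧ P.piecewise u z ∈ A ∧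
      P.piecewise e z ∈ A}) : HasCube (t + 1) A := by
  obtain ⟨x, y, lab, h1, h2⟩ := h
  obtain ⟨i0, hi0, hne⟩ := hue
  have hx := (h2 fun _ => false).1
  have hy := (h2 fun _ => true).1
  simp only [Bool.false_eq_true, if_false, if_true] at hx hy
  refine ⟨P.piecewise u x, P.piecewise e y, fun i => if i ∈ P then t else lab i, ?_, ?_⟩
  · intro j hj
    rcases Nat.lt_succ_iff_lt_or_eq.1 hj with hj | rfl
    · obtain ⟨i, hi, hxy⟩ := h1 j hj
      have hiP : i ∉ P := by
        intro hiP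
        have hiQ : i ∉ Q := disjoint_left.1 hPQ hiP
        rw [hx i hiQ, hy i hiQ] at hxy
        exact hxy rfl
      exact ⟨i, by simp [hiP, hi], by simpa [hiP] using hxy⟩
    · exact ⟨i0, by simp [hi0], by simpa [hi0] using hne⟩
  · intro ε
    have h3 : (fun i => if ε (if i ∈ P then t else lab i) = true then P.piecewise e y i
        else P.piecewise u x i) =
        P.piecewise (if ε t = true then e else u)
          (fun i => if ε (lab i) = true then y i else x i) := by
      funext i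
      by_cases hi : i ∈ P
      · simp only [hi, if_true, Finset.piecewise_eq_of_mem]
        split_ifs <;> rfl
      · simp only [hi, if_false, not_false_eq_true, Finset.piecewise_eq_of_notMem]
    rw [h3]
    obtain ⟨-, h4, h5⟩ := h2 ε
    split_ifs
    · exact h5
    · exact h4

omit [Fintype ι] [Fintype α] [DecidableEq α] [DecidableEq K] in
lemma Rk.sect {w : ℕ} {S : Finset ι} {g : (ι → α) → K} (h : Rk w S g) (P : Finset ι)
    (u : ι → α) : Rk w S (fun z => g (P.piecewise u z)) := by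
  obtain ⟨κ, i1, a, b, h1, h2, h3, h4⟩ := h
  refine ⟨κ, i1, fun k z => a k (P.piecewise u z), fun k z => b k (P.piecewise u z), h1, ?_, ?_,
    fun x => h4 _⟩
  · intro k x y hxy
    refine h2 k _ _ fun i hi => ?_
    by_cases hiP : i ∈ P
    · simp [hiP]
    · simp [hiP, hxy i hi]
  · intro k x y hxy
    refine h3 k _ _ fun i hi => ?_
    by_cases hiP : i ∈ P
    · simp [hiP]
    · simp [hiP, hxy i hi]

omit [Fintype ι] [DecidableEq ι] [Fintype α] [DecidableEq α] [DecidableEq K] in
lemma Rk.mul {w w' : ℕ} {S : Finset ι} {g g' : (ι → α) → K} (h : Rk w S g) (h' : Rk w' S g') :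
    Rk (w * w') S (fun z => g z * g' z) := by
  obtain ⟨κ, i1, a, b, h1, h2, h3, h4⟩ := h
  obtain ⟨κ', i1', a', b', h1', h2', h3', h4'⟩ := h'
  refine ⟨κ × κ', inferInstance, fun k z => a k.1 z * a' k.2 z, fun k z => b k.1 z * b' k.2 z,
    ?_, ?_, ?_, ?_⟩
  · rw [Fintype.card_prod]
    exact Nat.mul_le_mul h1 h1'
  · intro k x y hxy
    simp only
    rw [h2 k.1 x y hxy, h2' k.2 x y hxy]
  · intro k x y hxy
    simp only
    rw [h3 k.1 x y hxy, h3' k.2 x y hxy]
  · intro x
    simp only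
    rw [h4 x, h4' x, Finset.sum_mul_sum, ← Finset.univ_product_univ, Finset.sum_product]
    refine sum_congr rfl fun k _ => sum_congr rfl fun k' _ => by ring

/-- one level -/
lemma cube_level {t w T1 B : ℕ} (g : (ι → α) → K) (W S P Q : Finset ι) (hS : Rk w S g)
    (hP : P = W ∩ S) (hQ : Q = W \ S) (z0 : ι → α)
    (hcube : ¬ HasCube (t + 1) {z | z ∈ Sl W z0 ∧ g z ≠ 0})
    (h1 : ∀ z, ¬ HasCube (t + 1) {y | y ∈ Sl P z ∧ g y ≠ 0} →
      ((Sl P z).filter fun y => g y ≠ 0).card ≤ T1)
    (h2 : ∀ z, ¬ HasCube (t + 1) {y | y ∈ Sl Q z ∧ g y ≠ 0} →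
      ((Sl Q z).filter fun y => g y ≠ 0).card ≤ T1)
    (h3 : ∀ u e : ι → α, ¬ HasCube t {y | y ∈ Sl Q z0 ∧
      g (P.piecewise u y) * g (P.piecewise e y) ≠ 0} →
      ((Sl Q z0).filter fun y => g (P.piecewise u y) * g (P.piecewise e y) ≠ 0).card ≤ B) :
    ((Sl W z0).filter fun z => g z ≠ 0).card ≤ T1 * (w + w ^ 2 * B) := by
  obtain ⟨κ, hκ, a, b, hd, ha, hb, hf⟩ := hS
  have hPQ : Disjoint P Q := by
    rw [disjoint_left]
    intro i h h'
    rw [hP, mem_inter] at h
    rw [hQ, mem_sdiff] at h'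
    exact h'.2 h.2
  have hPS : ∀ i, i ∈ P → i ∈ S := fun i h => by
    rw [hP, mem_inter] at h
    exact h.2
  have hQS : ∀ i, i ∈ Q → i ∉ S := fun i h => by
    rw [hQ, mem_sdiff] at h
    exact h.2
  have hWPQ : ∀ i, i ∈ W ↔ (i ∈ P ∨ i ∈ Q) := by
    intro i
    rw [hP, hQ, mem_inter, mem_sdiff]
    tauto
  -- the matrix
  have hM : ∀ u ∈ Sl P z0, ∀ v ∈ Sl Q z0, g (P.piecewise u v) = ∑ k, a k u * b k v := by
    intro u hu v hv
    rw [hf]
    refine sum_congr rfl fun k _ => ?_
    congr 1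
    · refine ha k _ _ fun i hi => ?_
      by_cases hiP : i ∈ P
      · simp [hiP]
      · have hiQ : i ∉ Q := fun h => hQS i h hi
        simp [hiP, mem_Sl.1 hv i hiQ, mem_Sl.1 hu i hiP]
    · refine hb k _ _ fun i hi => ?_
      have hiP : i ∉ P := fun h => hi (hPS i h)
      simp [hiP]
  obtain ⟨E, hE1, hE2, hE3⟩ := detect (Sl P z0) (fun u k => a k u)
  obtain ⟨E', hE1', hE2', hE3'⟩ := detect (Sl Q z0) (fun v k => b k v)
  have hin : ∀ u ∈ Sl P z0, ∀ v ∈ Sl Q z0, P.piecewise u v ∈ Sl W z0 := by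
    intro u hu v hv
    rw [mem_Sl]
    intro i hi
    rw [hWPQ, not_or] at hi
    simp [hi.1, mem_Sl.1 hv i hi.2]
  -- rows
  let n : (ι → α) → ℕ := fun u => ((Sl Q z0).filter fun v => g (P.piecewise u v) ≠ 0).card
  have hn1 : ∀ u ∈ Sl P z0, n u ≤ T1 := by
    intro u hu
    have h4 : ¬ HasCube (t + 1) {y | y ∈ Sl Q u ∧ g y ≠ 0} := by
      intro h
      refine hcube (h.mono ?_)
      rintro y ⟨hy1, hy2⟩
      refine ⟨?_, hy2⟩
      rw [mem_Sl]
      intro i hi
      rw [hWPQ, not_or] at hi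
      rw [mem_Sl.1 hy1 i hi.2, mem_Sl.1 hu i hi.1]
    refine le_trans ?_ (h2 u h4)
    refine card_le_card_of_injOn (fun v => P.piecewise u v) ?_ ?_
    · intro v hv
      rw [mem_coe, mem_filter] at hv
      rw [mem_coe, mem_filter, mem_Sl]
      refine ⟨fun i hi => ?_, hv.2⟩
      by_cases hiP : i ∈ P
      · simp [hiP]
      · simp [hiP, mem_Sl.1 hv.1 i hi, mem_Sl.1 hu i hiP]
    · intro v hv v' hv' hvv
      rw [mem_coe, mem_filter] at hv hv'
      funext i
      by_cases hiP : i ∈ P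
      · have hiQ : i ∉ Q := disjoint_left.1 hPQ hiP
        rw [mem_Sl.1 hv.1 i hiQ, mem_Sl.1 hv'.1 i hiQ]
      · have := congrFun hvv i
        simpa [hiP] using this
  have hn2 : ∀ u ∈ Sl P z0, u ∉ E → n u ≤ w * B := by
    intro u hu huE
    have h4 : ((Sl Q z0).filter fun v => g (P.piecewise u v) ≠ 0) ⊆
        E.biUnion fun e => (Sl Q z0).filter fun v =>
          g (P.piecewise u v) * g (P.piecewise e v) ≠ 0 := by
      intro v hv
      rw [mem_filter] at hv
      obtain ⟨e, he, hev⟩ := hE3 (fun k => b k v) u hu (by rw [← hM u hu v hv.1]; exact hv.2)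
      rw [← hM e (hE1 he) v hv.1] at hev
      rw [mem_biUnion]
      exact ⟨e, he, mem_filter.2 ⟨hv.1, mul_ne_zero hv.2 hev⟩⟩
    refine (card_le_card h4).trans (card_biUnion_le.trans ?_)
    calc ∑ e ∈ E, ((Sl Q z0).filter fun v =>
          g (P.piecewise u v) * g (P.piecewise e v) ≠ 0).card ≤ E.card * B := by
          rw [← smul_eq_mul]
          refine sum_le_card_nsmul _ _ _ fun e he => ?_
          refine h3 u e fun hc => hcube ?_
          refine cube_succ (A := {z | z ∈ Sl W z0 ∧ g z ≠ 0}) (P := P) (Q := Q) (u := u) (e := e)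
            (z0 := z0) hPQ ?_ (hc.mono ?_)
          · by_contra hno
            push Not at hno
            apply huE
            have : u = e := by
              funext i
              by_cases hiP : i ∈ P
              · exact hno i hiP
              · rw [mem_Sl.1 hu i hiP, mem_Sl.1 (hE1 he) i hiP]
            rwa [this]
          · rintro y ⟨hy1, hy2⟩
            exact ⟨mem_Sl.1 hy1, ⟨hin u hu y hy1, left_ne_zero_of_mul hy2⟩,
              ⟨hin e (hE1 he) y hy1, right_ne_zero_of_mul hy2⟩⟩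
      _ ≤ w * B := Nat.mul_le_mul_right _ (hE2.trans hd)
  -- the number of nonzero rows
  have hrows : ((Sl P z0).filter fun u => ∃ v ∈ Sl Q z0, g (P.piecewise u v) ≠ 0).card ≤
      w * T1 := by
    have h4 : ((Sl P z0).filter fun u => ∃ v ∈ Sl Q z0, g (P.piecewise u v) ≠ 0) ⊆
        E'.biUnion fun e => (Sl P z0).filter fun u => g (P.piecewise u e) ≠ 0 := by
      intro u hu
      rw [mem_filter] at hu
      obtain ⟨hu, v, hv, hne⟩ := hu
      obtain ⟨e, he, hev⟩ := hE3' (fun k => a k u) v hv (by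
        rw [hM u hu v hv] at hne
        simpa only [mul_comm] using hne)
      rw [mem_biUnion]
      refine ⟨e, he, mem_filter.2 ⟨hu, ?_⟩⟩
      rw [hM u hu e (hE1' he)]
      simpa only [mul_comm] using hev
    refine (card_le_card h4).trans (card_biUnion_le.trans ?_)
    calc ∑ e ∈ E', ((Sl P z0).filter fun u => g (P.piecewise u e) ≠ 0).card ≤ E'.card * T1 := by
          rw [← smul_eq_mul]
          refine sum_le_card_nsmul _ _ _ fun e he => ?_
          have h5 : ¬ HasCube (t + 1) {y | y ∈ Sl P e ∧ g y ≠ 0} := by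
            intro h
            refine hcube (h.mono ?_)
            rintro y ⟨hy1, hy2⟩
            refine ⟨?_, hy2⟩
            rw [mem_Sl]
            intro i hi
            rw [hWPQ, not_or] at hi
            rw [mem_Sl.1 hy1 i hi.1, mem_Sl.1 (hE1' he) i hi.2]
          refine le_trans ?_ (h1 e h5)
          refine card_le_card_of_injOn (fun u => P.piecewise u e) ?_ ?_
          · intro u hu
            rw [mem_coe, mem_filter] at hu
            rw [mem_coe, mem_filter, mem_Sl]
            exact ⟨fun i hi => by simp [hi], hu.2⟩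
          · intro u hu u' hu' huu
            rw [mem_coe, mem_filter] at hu hu'
            funext i
            by_cases hiP : i ∈ P
            · have := congrFun huu i
              simpa [hiP] using this
            · rw [mem_Sl.1 hu.1 i hiP, mem_Sl.1 hu'.1 i hiP]
      _ ≤ w * T1 := Nat.mul_le_mul_right _ (hE2'.trans hd)
  -- the sum
  have hsum : ((Sl W z0).filter fun z => g z ≠ 0).card ≤ ∑ u ∈ Sl P z0, n u := by
    have h4 : ∑ u ∈ Sl P z0, n u =
        (((Sl P z0) ×ˢ (Sl Q z0)).filter fun p => g (P.piecewise p.1 p.2) ≠ 0).card := by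
      rw [card_filter, sum_product]
      exact sum_congr rfl fun u _ => card_filter _ _
    rw [h4]
    refine card_le_card_of_injOn (fun z => (P.piecewise z z0, Q.piecewise z z0)) ?_ ?_
    · intro z hz
      rw [mem_coe, mem_filter] at hz
      rw [mem_coe, mem_filter, mem_product]
      refine ⟨⟨mem_Sl.2 fun i hi => by simp [hi], mem_Sl.2 fun i hi => by simp [hi]⟩, ?_⟩
      have : P.piecewise (P.piecewise z z0) (Q.piecewise z z0) = z := by
        funext i
        by_cases hiP : i ∈ P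
        · simp [hiP]
        · by_cases hiQ : i ∈ Q
          · simp [hiP, hiQ]
          · have hiW : i ∉ W := by
              rw [hWPQ]
              tauto
            simp [hiP, hiQ, mem_Sl.1 hz.1 i hiW]
      simp only
      rw [this]
      exact hz.2
    · intro z hz z' hz' hzz
      rw [mem_coe, mem_filter] at hz hz'
      simp only [Prod.mk.injEq] at hzz
      funext i
      by_cases hiP : i ∈ P
      · have := congrFun hzz.1 i
        simpa [hiP] using this
      · by_cases hiQ : i ∈ Q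
        · have := congrFun hzz.2 i
          simpa [hiQ] using this
        · have hiW : i ∉ W := by
            rw [hWPQ]
            tauto
          rw [mem_Sl.1 hz.1 i hiW, mem_Sl.1 hz'.1 i hiW]
  refine hsum.trans ?_
  have hpt : ∀ u ∈ Sl P z0, n u ≤ (if u ∈ E then T1 else 0) +
      (if ∃ v ∈ Sl Q z0, g (P.piecewise u v) ≠ 0 then w * B else 0) := by
    intro u hu
    by_cases huE : u ∈ E
    · rw [if_pos huE]
      have := hn1 u hu
      omega
    · by_cases hex : ∃ v ∈ Sl Q z0, g (P.piecewise u v) ≠ 0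
      · rw [if_pos hex]
        have := hn2 u hu huE
        omega
      · have h5 : n u = 0 := by
          show ((Sl Q z0).filter fun v => g (P.piecewise u v) ≠ 0).card = 0
          rw [card_eq_zero, filter_eq_empty_iff]
          intro v hv hne
          exact hex ⟨v, hv, hne⟩
        rw [h5]
        exact Nat.zero_le _
  refine (sum_le_sum hpt).trans ?_
  rw [sum_add_distrib, ← sum_filter, ← sum_filter, sum_const, sum_const, smul_eq_mul, smul_eq_mul]
  have c1 : ((Sl P z0).filter fun u => u ∈ E).card ≤ w := by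
    refine le_trans (card_le_card ?_) (hE2.trans hd)
    intro u hu
    exact (mem_filter.1 hu).2
  calc _ ≤ w * T1 + (w * T1) * (w * B) :=
        add_le_add (Nat.mul_le_mul_right _ c1) (Nat.mul_le_mul_right _ hrows)
    _ = T1 * (w + w ^ 2 * B) := by ring

/-- the bound -/
def Bd (q t w J : ℕ) : ℕ := (q * w ^ (2 ^ (t + 1))) ^ ((2 * J + 2) ^ t)

lemma Bd_pos {q t w J : ℕ} (hq : 1 ≤ q) (hw : 1 ≤ w) : 1 ≤ Bd q t w J := by
  unfold Bd
  have h1 : 1 ≤ w ^ (2 ^ (t + 1)) := Nat.one_le_pow _ _ hw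
  exact Nat.one_le_pow _ _ (Nat.mul_pos hq h1)

lemma Bd_step {q t w J : ℕ} (hq : 1 ≤ q) (hw : 1 ≤ w) :
    q * (q * w ^ 2 * Bd q t (w ^ 2) J) ^ J ≤ Bd q (t + 1) w J := by
  have e1 : Bd q t (w ^ 2) J = (q * w ^ (2 ^ (t + 2))) ^ ((2 * J + 2) ^ t) := by
    unfold Bd
    rw [← pow_mul]
    congr 3
    ring
  have e2 : Bd q (t + 1) w J = (q * w ^ (2 ^ (t + 2))) ^ ((2 * J + 2) ^ (t + 1)) := rfl
  rw [e1, e2]
  obtain ⟨X, hX⟩ : ∃ X, X = q * w ^ (2 ^ (t + 2)) := ⟨_, rfl⟩
  rw [← hX]
  obtain ⟨Y, hY⟩ : ∃ Y, Y = (2 * J + 2) ^ t := ⟨_, rfl⟩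
  rw [pow_succ (2 * J + 2) t, ← hY]
  have hw1 : 1 ≤ w ^ (2 ^ (t + 2)) := Nat.one_le_pow _ _ hw
  have hX1 : 1 ≤ X := by
    rw [hX]
    exact Nat.mul_pos hq hw1
  have hqX : q ≤ X := by
    rw [hX]
    exact Nat.le_mul_of_pos_right _ hw1
  have hqwX : q * w ^ 2 ≤ X := by
    rw [hX]
    refine Nat.mul_le_mul_left _ (Nat.pow_le_pow_right hw ?_)
    calc 2 = 2 ^ 1 := rfl
      _ ≤ 2 ^ (t + 2) := Nat.pow_le_pow_right (by norm_num) (by omega)
  have hY1 : 1 ≤ Y := by
    rw [hY]
    exact Nat.one_le_pow _ _ (by omega)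
  calc q * (q * w ^ 2 * X ^ Y) ^ J ≤ X * (X * X ^ Y) ^ J := by
        gcongr
    _ = X ^ (1 + (1 + Y) * J) := by
        rw [show X * X ^ Y = X ^ (1 + Y) by rw [pow_add, pow_one], ← pow_mul, pow_add X 1, pow_one]
    _ ≤ X ^ (Y * (2 * J + 2)) := by
        refine Nat.pow_le_pow_right hX1 ?_
        nlinarith

theorem cube_main {q : ℕ} (hq : 2 ≤ q) (hα : Fintype.card α ≤ q) (𝓢 : Set (Finset ι))
    (hbal : ∀ V : Finset ι, 2 ≤ V.card → ∃ S ∈ 𝓢, 3 * (V ∩ S).card ≤ 2 * V.card ∧
      3 * (V \ S).card ≤ 2 * V.card) (t : ℕ) :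
    ∀ (w J : ℕ) (g : (ι → α) → K) (W : Finset ι) (z0 : ι → α), 1 ≤ w →
      (∀ S ∈ 𝓢, Rk w S g) → W.card * 2 ^ J ≤ 3 ^ J →
      ¬ HasCube (t + 1) {z | z ∈ Sl W z0 ∧ g z ≠ 0} →
      ((Sl W z0).filter fun z => g z ≠ 0).card ≤ Bd q t w J := by
  induction t with
  | zero =>
    intro w J g W z0 hw _ _ hcube
    refine le_trans ?_ (Bd_pos (by omega) hw)
    rw [card_le_one]
    intro x hx y hy
    by_contra hne
    rw [mem_filter] at hx hy
    exact hcube (cube_one hx hy hne)
  | succ t ih =>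
    intro w J g W z0 hw hrk hWJ hcube
    refine le_trans ?_ (Bd_step (by omega) hw)
    have key : ∀ j ≤ J, ∀ (W : Finset ι) (z0 : ι → α), W.card * 2 ^ j ≤ 3 ^ j →
        ¬ HasCube (t + 1 + 1) {z | z ∈ Sl W z0 ∧ g z ≠ 0} →
        ((Sl W z0).filter fun z => g z ≠ 0).card ≤ q * (q * w ^ 2 * Bd q t (w ^ 2) J) ^ j := by
      intro j
      have hB1 : 1 ≤ Bd q t (w ^ 2) J := Bd_pos (by omega) (Nat.one_le_pow _ _ hw)
      have hw2 : 1 ≤ w ^ 2 := Nat.one_le_pow _ _ hw
      have hbase : ∀ (W : Finset ι) (z0 : ι → α), W.card ≤ 1 →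
          ((Sl W z0).filter fun z => g z ≠ 0).card ≤ q := by
        intro W z0 hW
        refine (card_filter_le _ _).trans ?_
        rw [card_Sl]
        calc Fintype.card α ^ W.card ≤ q ^ W.card := Nat.pow_le_pow_left hα _
          _ ≤ q ^ 1 := Nat.pow_le_pow_right (by omega) hW
          _ = q := pow_one q
      have hpos : 1 ≤ q * w ^ 2 * Bd q t (w ^ 2) J :=
        Nat.mul_pos (Nat.mul_pos (by omega) hw2) hB1
      induction j with
      | zero =>
        intro _ W z0 hW _
        rw [pow_zero, mul_one]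
        exact hbase W z0 (by simpa using hW)
      | succ j ihj =>
        intro hj W z0 hW hc
        by_cases h1 : W.card ≤ 1
        · exact (hbase W z0 h1).trans (Nat.le_mul_of_pos_right _ (pow_pos hpos _))
        · obtain ⟨S, hS, h2, h3⟩ := hbal W (by omega)
          have hp2 : 0 < 2 ^ j := by positivity
          have e2 : 2 ^ (j + 1) = 2 * 2 ^ j := by ring
          have e3 : 3 ^ (j + 1) = 3 * 3 ^ j := by ring
          rw [e2, e3] at hW
          have h4 : (W ∩ S).card * 2 ^ j ≤ 3 ^ j := by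
            have : 3 * (W ∩ S).card * 2 ^ j ≤ 2 * W.card * 2 ^ j := Nat.mul_le_mul_right _ h2
            nlinarith
          have h5 : (W \ S).card * 2 ^ j ≤ 3 ^ j := by
            have : 3 * (W \ S).card * 2 ^ j ≤ 2 * W.card * 2 ^ j := Nat.mul_le_mul_right _ h3
            nlinarith
          have h5J : (W \ S).card * 2 ^ J ≤ 3 ^ J := by
            obtain ⟨l, rfl⟩ : ∃ l, J = j + l := ⟨J - j, by omega⟩
            rw [pow_add, pow_add]
            calc (W \ S).card * (2 ^ j * 2 ^ l) = ((W \ S).card * 2 ^ j) * 2 ^ l := by ring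
              _ ≤ 3 ^ j * 3 ^ l := Nat.mul_le_mul h5 (Nat.pow_le_pow_left (by norm_num) _)
          have h6 := cube_level (t := t + 1) (w := w)
            (T1 := q * (q * w ^ 2 * Bd q t (w ^ 2) J) ^ j) (B := Bd q t (w ^ 2) J) g W S
            (W ∩ S) (W \ S) (hrk S hS) rfl rfl z0 hc
            (fun z hz => ihj (by omega) _ z h4 hz) (fun z hz => ihj (by omega) _ z h5 hz)
            (fun u e hue => ih (w ^ 2) J
              (fun y => g ((W ∩ S).piecewise u y) * g ((W ∩ S).piecewise e y)) (W \ S) z0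
              (Nat.one_le_pow _ _ hw) (fun S' hS' => by
                rw [pow_two]
                exact Rk.mul (Rk.sect (hrk S' hS') _ u) (Rk.sect (hrk S' hS') _ e)) h5J hue)
          refine h6.trans ?_
          rw [pow_succ (q * w ^ 2 * Bd q t (w ^ 2) J) j, ← mul_assoc]
          refine Nat.mul_le_mul_left _ ?_
          have hww : w ≤ w ^ 2 * Bd q t (w ^ 2) J := by
            calc w = w * 1 := (mul_one w).symm
              _ ≤ w ^ 2 * Bd q t (w ^ 2) J :=
                Nat.mul_le_mul (Nat.le_self_pow (by norm_num) w) hB1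
          calc w + w ^ 2 * Bd q t (w ^ 2) J ≤ 2 * (w ^ 2 * Bd q t (w ^ 2) J) := by omega
            _ ≤ q * (w ^ 2 * Bd q t (w ^ 2) J) := Nat.mul_le_mul_right _ hq
            _ = q * w ^ 2 * Bd q t (w ^ 2) J := by ring
    exact key J le_rfl W z0 hWJ hcube

end

end Pool.Agent.R756.KT
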