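import Pool.Agent.R756.KT.CubeReps

/-!
Representation functions and tree tensor networks: asymptotic form.
-/

set_option autoImplicit false

namespace Pool.Agent.R756.KT

open Finset hiding val
open Filter Topology Pool.Agent.R756.TN Pool.Agent.H96.Reps

lemma J_ok (m : ℕ) : m * 2 ^ (2 * Nat.clog 2 m) ≤ 3 ^ (2 * Nat.clog 2 m) := by
  have h1 : m ≤ 2 ^ Nat.clog 2 m := Nat.le_pow_clog (by norm_num) _
  set C := Nat.clog 2 m
  calc m * 2 ^ (2 * C) ≤ 2 ^ C * 2 ^ (2 * C) := Nat.mul_le_mul_right _ h1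
    _ = 8 ^ C := by
        rw [← pow_add, show C + 2 * C = 3 * C by ring, pow_mul]
        norm_num
    _ ≤ 9 ^ C := Nat.pow_le_pow_left (by norm_num) _
    _ = 3 ^ (2 * C) := by
        rw [pow_mul]
        norm_num

lemma J_le {m : ℕ} (hm : 2 ≤ Real.log m) (hm1 : 2 ≤ m) :
    ((2 * (2 * Nat.clog 2 m) + 2 : ℕ) : ℝ) ≤ 18 * Real.log m := by
  have h1 : 2 ^ (Nat.clog 2 m).pred < m :=
    Nat.pow_pred_clog_lt_self (by norm_num) (by omega)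
  set C := Nat.clog 2 m
  have h2 : ((2 : ℝ) ^ C.pred) < m := by exact_mod_cast h1
  have hm0 : (0 : ℝ) < m := by
    have : 0 < m := by omega
    exact_mod_cast this
  have h3 : (C.pred : ℝ) * Real.log 2 < Real.log m := by
    rw [← Real.log_pow]
    exact Real.log_lt_log (by positivity) h2
  have h4 : (C : ℝ) ≤ C.pred + 1 := by
    have : C ≤ C.pred + 1 := by
      rw [Nat.pred_eq_sub_one]
      omega
    exact_mod_cast this
  have h5 := Real.log_two_gt_d9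
  have h6 : (C.pred : ℝ) ≤ 2 * Real.log m := by
    by_contra hno
    push Not at hno
    nlinarith
  push_cast
  nlinarith

lemma asym (t : ℕ) {e η : ℝ} (he : 0 < e) (hη : 0 < η) (hη1 : η ≤ 1) :
    ∀ᶠ m : ℕ in atTop, ∀ w : ℕ, (w : ℝ) ≤ (2 : ℝ) ^ ((m : ℝ) ^ (1 - η)) →
      (((2 * (max w 1) ^ (2 ^ (t + 1))) ^ ((2 * (2 * Nat.clog 2 m) + 2) ^ t) : ℕ) : ℝ) ≤
        ((2 : ℝ) ^ m) ^ e := by
  set s : ℝ := η / (2 * ((t : ℝ) + 1)) with hs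
  have hs0 : 0 < s := by positivity
  have t1 : ∀ᶠ m : ℕ in atTop, 2 ≤ Real.log m :=
    (Real.tendsto_log_atTop.comp tendsto_natCast_atTop_atTop).eventually_ge_atTop 2
  have t2 : ∀ᶠ m : ℕ in atTop, Real.log m ≤ 1 / 18 * (m : ℝ) ^ s := by
    have h1 := (isLittleO_log_rpow_atTop hs0).comp_tendsto tendsto_natCast_atTop_atTop
    have h2 := h1.def (c := 1 / 18) (by norm_num)
    filter_upwards [h2] with m hm
    simp only [Function.comp_apply, Real.norm_eq_abs] at hm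
    rw [abs_of_nonneg (by positivity : (0 : ℝ) ≤ (m : ℝ) ^ s)] at hm
    exact (le_abs_self _).trans hm
  have t3 : ∀ᶠ m : ℕ in atTop, 2 ^ (t + 2) / e ≤ (m : ℝ) ^ (η / 2) :=
    ((tendsto_rpow_atTop (by positivity : 0 < η / 2)).comp
      tendsto_natCast_atTop_atTop).eventually_ge_atTop _
  filter_upwards [t1, t2, t3, eventually_ge_atTop 2] with m h1 h2 h3 hm2
  intro w hw
  have hm1 : (1 : ℝ) ≤ m := by
    have : 1 ≤ m := by omega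
    exact_mod_cast this
  have hm0 : (0 : ℝ) < m := by linarith
  have hX : (1 : ℝ) ≤ (m : ℝ) ^ (1 - η) := Real.one_le_rpow hm1 (by linarith)
  have hv : ((max w 1 : ℕ) : ℝ) ≤ (2 : ℝ) ^ ((m : ℝ) ^ (1 - η)) := by
    rw [Nat.cast_max]
    refine max_le hw ?_
    rw [Nat.cast_one]
    exact Real.one_le_rpow (by norm_num) (by linarith)
  have hJ := J_le h1 hm2
  set N := 2 * (2 * Nat.clog 2 m) + 2 with hN
  have hNs : (N : ℝ) ≤ (m : ℝ) ^ s := by linarith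
  have hNt : (N : ℝ) ^ t ≤ (m : ℝ) ^ (η / 2) := by
    calc (N : ℝ) ^ t ≤ ((m : ℝ) ^ s) ^ t := by gcongr
      _ = (m : ℝ) ^ (s * t) := by rw [Real.rpow_mul hm0.le, Real.rpow_natCast]
      _ ≤ (m : ℝ) ^ (η / 2) := by
          refine Real.rpow_le_rpow_of_exponent_le hm1 ?_
          rw [hs, div_mul_eq_mul_div, div_le_div_iff₀ (by positivity) (by norm_num)]
          nlinarith
  push_cast
  have hv' : (max (w : ℝ) 1) ≤ (2 : ℝ) ^ ((m : ℝ) ^ (1 - η)) := by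
    rw [Nat.cast_max, Nat.cast_one] at hv
    exact hv
  have e1 : 2 * (max (w : ℝ) 1) ^ (2 ^ (t + 1)) ≤
      (2 : ℝ) ^ (2 ^ (t + 2) * (m : ℝ) ^ (1 - η)) := by
    calc 2 * (max (w : ℝ) 1) ^ (2 ^ (t + 1))
        ≤ 2 * ((2 : ℝ) ^ ((m : ℝ) ^ (1 - η))) ^ (2 ^ (t + 1)) := by gcongr
      _ = (2 : ℝ) ^ (1 + (m : ℝ) ^ (1 - η) * ((2 ^ (t + 1) : ℕ) : ℝ)) := by
          rw [Real.rpow_add (by norm_num), Real.rpow_one, Real.rpow_mul (by norm_num),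
            Real.rpow_natCast]
      _ ≤ (2 : ℝ) ^ (2 ^ (t + 2) * (m : ℝ) ^ (1 - η)) := by
          refine Real.rpow_le_rpow_of_exponent_le (by norm_num) ?_
          push_cast
          have h4 : (1 : ℝ) ≤ 2 ^ (t + 1) * (m : ℝ) ^ (1 - η) := by
            have : (1 : ℝ) ≤ 2 ^ (t + 1) := one_le_pow₀ (by norm_num)
            nlinarith
          have h5 : (2 : ℝ) ^ (t + 2) = 2 ^ (t + 1) + 2 ^ (t + 1) := by ring
          rw [h5]
          nlinarith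
  calc (2 * (max (w : ℝ) 1) ^ (2 ^ (t + 1))) ^ (N ^ t)
      ≤ ((2 : ℝ) ^ (2 ^ (t + 2) * (m : ℝ) ^ (1 - η))) ^ (N ^ t) := by gcongr
    _ = (2 : ℝ) ^ (2 ^ (t + 2) * (m : ℝ) ^ (1 - η) * ((N ^ t : ℕ) : ℝ)) := by
        rw [Real.rpow_mul (by norm_num) _ ((N ^ t : ℕ) : ℝ), Real.rpow_natCast]
    _ ≤ (2 : ℝ) ^ ((m : ℝ) * e) := by
        refine Real.rpow_le_rpow_of_exponent_le (by norm_num) ?_
        push_cast
        have h6 : (m : ℝ) = (m : ℝ) ^ (1 - η) * ((m : ℝ) ^ (η / 2) * (m : ℝ) ^ (η / 2)) := by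
          rw [← Real.rpow_add hm0, ← Real.rpow_add hm0]
          conv_lhs => rw [← Real.rpow_one (m : ℝ)]
          congr 1
          ring
        have h7 : (2 : ℝ) ^ (t + 2) ≤ (m : ℝ) ^ (η / 2) * e := (div_le_iff₀ he).1 h3
        have h8 : (0 : ℝ) ≤ (m : ℝ) ^ (η / 2) := by positivity
        have h9 : (0 : ℝ) ≤ (m : ℝ) ^ (1 - η) := by positivity
        calc 2 ^ (t + 2) * (m : ℝ) ^ (1 - η) * (N : ℝ) ^ t
            ≤ ((m : ℝ) ^ (η / 2) * e) * (m : ℝ) ^ (1 - η) * (m : ℝ) ^ (η / 2) := by gcongr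
          _ = ((m : ℝ) ^ (1 - η) * ((m : ℝ) ^ (η / 2) * (m : ℝ) ^ (η / 2))) * e := by ring
          _ = (m : ℝ) * e := by rw [← h6]
    _ = ((2 : ℝ) ^ m) ^ e := by
        rw [← Real.rpow_natCast (2 : ℝ) m, ← Real.rpow_mul (by norm_num)]

lemma TreeSet.mono {m w w' : ℕ} {F : Set (Fin m → Bool)} (h : TreeSet w F) (hw : w ≤ w') :
    TreeSet w' F := by
  obtain ⟨K, i1, W, i2, D, φ, h1, h2, h3⟩ := h
  exact ⟨K, i1, W, i2, D, φ, h1.trans hw, h2, h3⟩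

/-- Density thresholds. -/
theorem tree_threshold_reps (α β η : ℝ) (hη : 0 < η) (hη1 : η ≤ 1) (hαβ : α + β < 1 / 2)
    (hβ : 0 ≤ β) (g : ℕ → ℝ) (A : Set ℕ)
    (hg0 : ∀ᶠ N : ℕ in Filter.atTop, 0 < g N)
    (hg : ∀ᶠ N : ℕ in Filter.atTop, g N ≤ (N : ℝ) ^ α)
    (hA : ∃ C : ℝ, 0 < C ∧ ∀ᶠ N : ℕ in Filter.atTop,
      (N : ℝ) ^ (1 / 2 : ℝ) / g N ≤ C * Nat.card {a : ℕ // a ∈ A ∧ 1 ≤ a ∧ a ≤ N})
    (hD : ∃ᶠ m : ℕ in Filter.atTop, ∃ L w : ℕ, (L : ℝ) ≤ ((2 : ℝ) ^ m) ^ β ∧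
      (w : ℝ) ≤ (2 : ℝ) ^ ((m : ℝ) ^ (1 - η)) ∧ TreeUnion L w (digits m A)) :
    ∀ K : ℕ, ∃ n, K ≤ reps A n := by
  intro K
  set e : ℝ := (1 / 2 - α - β) / 2 with he'
  have he : 0 < e := by rw [he']; linarith
  have heab : β + e < 1 / 2 - α := by rw [he']; linarith
  have hasym := asym K he hη hη1
  obtain ⟨C, hC, hA⟩ := hA
  set s : ℝ := 1 / 2 - α with hs
  have hs0 : 0 ≤ s := by rw [hs]; linarith
  set ζ : ℝ := s - (β + e) with hζ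
  have hζ0 : 0 < ζ := by rw [hζ]; linarith
  have ht2 : Filter.Tendsto (fun m : ℕ => ((2 : ℝ) ^ m) ^ ζ) Filter.atTop Filter.atTop :=
    (tendsto_rpow_atTop hζ0).comp (tendsto_pow_atTop_atTop_of_one_lt (by norm_num))
  have ht3 := ht2.eventually_gt_atTop (C * 2 ^ s)
  have hsub : Filter.Tendsto (fun m : ℕ => 2 ^ m - 1) Filter.atTop Filter.atTop := by
    apply Filter.tendsto_atTop_mono (f := fun m => m)
    · intro m
      have : m < 2 ^ m := Nat.lt_two_pow_self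
      show m ≤ 2 ^ m - 1
      omega
    · exact Filter.tendsto_id
  obtain ⟨m, ⟨L, w, hL, hw, hDep⟩, hm1', hm2, hA', hg0', hg', has⟩ :=
    (hD.and_eventually ((Filter.eventually_ge_atTop 1).and (ht3.and
      ((hsub.eventually hA).and ((hsub.eventually hg0).and ((hsub.eventually hg).and
        hasym)))))).exists
  -- the number of elements
  have hcard : (Nat.card {a : ℕ // a ∈ A ∧ 1 ≤ a ∧ a ≤ 2 ^ m - 1} : ℝ) ≤
      Nat.card {a : ℕ // a ∈ A ∧ a < 2 ^ m} := by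
    have hfin : Finite {a : ℕ // a ∈ A ∧ a < 2 ^ m} :=
      (Set.Finite.subset (Set.finite_Iio (2 ^ m)) (fun a ha => ha.2) :
        ({a : ℕ | a ∈ A ∧ a < 2 ^ m}).Finite).to_subtype
    have hpos : 0 < 2 ^ m := Nat.two_pow_pos m
    exact_mod_cast Nat.card_le_card_of_injective
      (fun a : {a : ℕ // a ∈ A ∧ 1 ≤ a ∧ a ≤ 2 ^ m - 1} =>
        (⟨a.1, a.2.1, by have := a.2.2.2; omega⟩ : {a : ℕ // a ∈ A ∧ a < 2 ^ m}))
      (fun a b hab => Subtype.ext (congrArg (fun x => x.1) hab))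
  set N : ℕ := 2 ^ m - 1 with hN
  have hNpos : 1 ≤ N := by
    have : 2 ^ 1 ≤ 2 ^ m := Nat.pow_le_pow_right (by norm_num) hm1'
    omega
  have hN0 : (0 : ℝ) < N := by exact_mod_cast hNpos
  have hN2 : (2 : ℝ) ^ m ≤ 2 * N := by
    have : 2 ^ m ≤ 2 * N := by omega
    exact_mod_cast this
  have h5 : (N : ℝ) ^ s ≤ (N : ℝ) ^ (1 / 2 : ℝ) / g N := by
    rw [le_div_iff₀ hg0']
    calc (N : ℝ) ^ s * g N ≤ (N : ℝ) ^ s * (N : ℝ) ^ α := by gcongr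
      _ = (N : ℝ) ^ (1 / 2 : ℝ) := by
          rw [← Real.rpow_add hN0]; congr 1; rw [hs]; ring
  have h6 : ((2 : ℝ) ^ m) ^ s ≤ 2 ^ s * (N : ℝ) ^ s := by
    rw [← Real.mul_rpow (by norm_num) hN0.le]
    exact Real.rpow_le_rpow (by positivity) hN2 hs0
  have hP : (0 : ℝ) < (2 : ℝ) ^ m := by positivity
  have h2s : (0 : ℝ) < (2 : ℝ) ^ s := by positivity
  have h7 : ((2 : ℝ) ^ m) ^ s ≤ 2 ^ s * (C * Nat.card {a : ℕ // a ∈ A ∧ a < 2 ^ m}) := by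
    refine h6.trans (mul_le_mul_of_nonneg_left ?_ h2s.le)
    exact (h5.trans hA').trans (mul_le_mul_of_nonneg_left hcard hC.le)
  have h8 : ((2 : ℝ) ^ m) ^ s = ((2 : ℝ) ^ m) ^ ζ * (((2 : ℝ) ^ m) ^ β * ((2 : ℝ) ^ m) ^ e) := by
    rw [← Real.rpow_add hP, ← Real.rpow_add hP]
    congr 1
    rw [hζ]; ring
  have h9 : (0 : ℝ) < ((2 : ℝ) ^ m) ^ β * ((2 : ℝ) ^ m) ^ e := by positivity
  have h10 : (C * 2 ^ s) * (((2 : ℝ) ^ m) ^ β * ((2 : ℝ) ^ m) ^ e) <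
      (C * 2 ^ s) * Nat.card {a : ℕ // a ∈ A ∧ a < 2 ^ m} := by
    calc (C * 2 ^ s) * (((2 : ℝ) ^ m) ^ β * ((2 : ℝ) ^ m) ^ e)
        < ((2 : ℝ) ^ m) ^ ζ * (((2 : ℝ) ^ m) ^ β * ((2 : ℝ) ^ m) ^ e) :=
          mul_lt_mul_of_pos_right hm2 h9
      _ = ((2 : ℝ) ^ m) ^ s := h8.symm
      _ ≤ _ := h7.trans (le_of_eq (by ring))
  have h11 : ((2 : ℝ) ^ m) ^ β * ((2 : ℝ) ^ m) ^ e <
      Nat.card {a : ℕ // a ∈ A ∧ a < 2 ^ m} := lt_of_mul_lt_mul_left h10 (by positivity)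
  have h12 : (L * (2 * (max w 1) ^ (2 ^ (K + 1))) ^ ((2 * (2 * Nat.clog 2 m) + 2) ^ K) : ℕ) <
      Nat.card {a : ℕ // a ∈ A ∧ a < 2 ^ m} := by
    have h13 : ((L * (2 * (max w 1) ^ (2 ^ (K + 1))) ^ ((2 * (2 * Nat.clog 2 m) + 2) ^ K) : ℕ) :
        ℝ) < (Nat.card {a : ℕ // a ∈ A ∧ a < 2 ^ m} : ℝ) := by
      refine lt_of_le_of_lt ?_ h11
      rw [Nat.cast_mul]
      exact mul_le_mul hL (has w hw) (Nat.cast_nonneg _) (by positivity)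
    exact_mod_cast h13
  have hDep' : TreeUnion L (max w 1) (digits m A) := by
    obtain ⟨T, h1, h2⟩ := hDep
    exact ⟨T, fun j => (h1 j).mono (le_max_left _ _), h2⟩
  obtain ⟨n, _, hn⟩ := tree_reps_bound m K (max w 1) L (2 * Nat.clog 2 m) (le_max_right _ _)
    (J_ok m) A hDep' h12
  refine ⟨n, ?_⟩
  have : K < 2 ^ (K + 1) := (Nat.lt_succ_self K).trans Nat.lt_two_pow_self
  omega

end Pool.Agent.R756.KT
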