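import Pool.Agent.R756.KT.Rec
import Pool.Agent.R756.CT.Cluster

/-!
Balanced cuts of read-once tree tensor networks.
-/

set_option autoImplicit false

namespace Pool.Agent.R756.KT

open Finset Pool.Agent.R756.TN Pool.Agent.R756.CT

section

variable {K ι α W : Type} [Field K] [DecidableEq ι]

/-- descent to a balanced subtree -/
lemma balanced [Fintype W] (D : Net K ι α W) (hD : D.ReadOnce) (V : Finset ι)
    (hV : 2 ≤ V.card) (h : 2 * V.card < 3 * (V ∩ D.vars).card) :
    ∃ S : Finset ι, S ⊆ D.vars ∧ RV (Fintype.card W) S (D.vars \ S) D.eval ∧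
      V.card ≤ 3 * (V ∩ S).card ∧ 3 * (V ∩ S).card ≤ 2 * V.card := by
  induction D with
  | leaf i f =>
    exfalso
    have h1 : (V ∩ (Net.leaf (K := K) i f).vars).card ≤ 1 := by
      refine (card_le_card inter_subset_right).trans ?_
      simp [Net.vars]
    omega
  | node g l r ihl ihr =>
    obtain ⟨hdis, hl, hr⟩ := hD
    have hev : (Net.node g l r).eval = fun x => g (l.eval x) (r.eval x) := rfl
    have hvars : (Net.node g l r).vars = l.vars ∪ r.vars := rfl
    have hcard : (V ∩ (Net.node g l r).vars).card = (V ∩ l.vars).card + (V ∩ r.vars).card := by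
      rw [hvars, inter_union_distrib_left, card_union_of_disjoint]
      exact hdis.mono inter_subset_right inter_subset_right
    have upl : ∀ S ⊆ l.vars, RV (Fintype.card W) S (l.vars \ S) l.eval →
        RV (Fintype.card W) S ((Net.node g l r).vars \ S) (Net.node g l r).eval := by
      intro S hS hrv
      have h3 := hrv.node g (RV.triv (eval_local r))
      rw [hev]
      refine h3.mono (by simp) (by simp) ?_
      intro i hi
      rw [hvars]
      rcases mem_union.1 hi with hi | hi
      · rw [mem_sdiff] at hi ⊢
        exact ⟨mem_union_left _ hi.1, hi.2⟩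
      · rw [mem_sdiff]
        exact ⟨mem_union_right _ hi, fun h => disjoint_left.1 hdis (hS h) hi⟩
    have upr : ∀ S ⊆ r.vars, RV (Fintype.card W) S (r.vars \ S) r.eval →
        RV (Fintype.card W) S ((Net.node g l r).vars \ S) (Net.node g l r).eval := by
      intro S hS hrv
      have h3 := (RV.triv (eval_local l)).node g hrv
      rw [hev]
      refine h3.mono (by simp) (by simp) ?_
      intro i hi
      rw [hvars]
      rcases mem_union.1 hi with hi | hi
      · rw [mem_sdiff]
        exact ⟨mem_union_left _ hi, fun h => disjoint_left.1 hdis hi (hS h)⟩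
      · rw [mem_sdiff] at hi ⊢
        exact ⟨mem_union_right _ hi.1, hi.2⟩
    by_cases h1 : 2 * V.card < 3 * (V ∩ l.vars).card
    · obtain ⟨S, hSl, hS, h2, h3⟩ := ihl hl h1
      exact ⟨S, hSl.trans (by rw [hvars]; exact subset_union_left), upl S hSl hS, h2, h3⟩
    · by_cases h2 : 2 * V.card < 3 * (V ∩ r.vars).card
      · obtain ⟨S, hSr, hS, h2, h3⟩ := ihr hr h2
        exact ⟨S, hSr.trans (by rw [hvars]; exact subset_union_right), upr S hSr hS, h2, h3⟩
      · rcases le_total (V ∩ l.vars).card (V ∩ r.vars).card with h3 | h3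
        · refine ⟨r.vars, by rw [hvars]; exact subset_union_right, upr _ (Subset.refl _) ?_,
            by omega, by omega⟩
          have := RV.full (eval_local r)
          rwa [sdiff_self]
        · refine ⟨l.vars, by rw [hvars]; exact subset_union_left, upl _ (Subset.refl _) ?_,
            by omega, by omega⟩
          have := RV.full (eval_local l)
          rwa [sdiff_self]

/-- every set of at least two coordinates is cut in a balanced way by a set of small flattening
rank -/
theorem exists_cut [Fintype W] (D : Net K ι α W) (hD : D.ReadOnce) (φ : (W → K) →ₗ[K] K)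
    {d : ℕ} (hd : Fintype.card W ≤ d) (hd1 : 1 ≤ d) (V : Finset ι) (hV : 2 ≤ V.card) :
    ∃ S : Finset ι, Rk d S (fun x => φ (D.eval x)) ∧ 3 * (V ∩ S).card ≤ 2 * V.card ∧
      3 * (V \ S).card ≤ 2 * V.card := by
  by_cases h : 2 * V.card < 3 * (V ∩ D.vars).card
  · obtain ⟨S, -, ⟨κ, hκ, a, b, h1, h2, h3, h4⟩, h5, h6⟩ := balanced D hD V hV h
    refine ⟨S, ⟨κ, hκ, a, fun k x => φ (b k x), h1.trans hd, h2, ?_, ?_⟩, h6, ?_⟩
    · intro k x y hxy
      simp only
      rw [h3 k x y fun i hi => hxy i (mem_sdiff.1 hi).2]
    · intro x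
      show φ (D.eval x) = ∑ k, a k x * φ (b k x)
      rw [h4 x, map_sum]
      exact sum_congr rfl fun k _ => by rw [map_smul, smul_eq_mul]
    · have := card_inter_add_card_sdiff V S
      omega
  · obtain ⟨E, hE1, hE2, hE3⟩ := exists_subsuperset_card_eq (s := V ∩ D.vars) (t := V)
      (n := max (V ∩ D.vars).card ((V.card + 1) / 2)) inter_subset_left (le_max_left _ _)
      (max_le (card_le_card inter_subset_left) (by omega))
    have hVE : V ∩ (D.vars ∪ E) = E := by
      ext i
      rw [mem_inter, mem_union]
      constructor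
      · rintro ⟨h1, h2 | h2⟩
        · exact hE1 (mem_inter.2 ⟨h1, h2⟩)
        · exact h2
      · intro h1
        exact ⟨hE2 h1, Or.inr h1⟩
    have hc : (V \ (D.vars ∪ E)).card + E.card = V.card := by
      have := card_inter_add_card_sdiff V (D.vars ∪ E)
      rw [hVE] at this
      omega
    refine ⟨D.vars ∪ E, ⟨Unit, inferInstance, fun _ x => φ (D.eval x), fun _ _ => 1, by simpa,
      ?_, fun _ _ _ _ => rfl, by simp⟩, ?_, ?_⟩
    · intro _ x y hxy
      simp only
      rw [eval_local D x y fun i hi => hxy i (mem_union_left _ hi)]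
    · rw [hVE, hE3]
      rcases le_total (V ∩ D.vars).card ((V.card + 1) / 2) with h7 | h7
      · rw [max_eq_right h7]
        omega
      · rw [max_eq_left h7]
        omega
    · rw [hE3] at hc
      have h8 := le_max_right (V ∩ D.vars).card ((V.card + 1) / 2)
      omega

end

end Pool.Agent.R756.KT
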