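import Pool.Agent.R756.KT.Cube
import Pool.Agent.R756.KT.Tree
import Pool.Agent.H96.Reps

/-!
Representation functions of sets of integers whose binary digits are given by tree tensor networks.
-/

set_option autoImplicit false

namespace Pool.Agent.R756.KT

open Finset hiding val
open Filter Topology Pool.Agent.R756.TN Pool.Agent.H96.Reps

/-- `F` is the support of a function of the digits which is computed by a tree tensor network `D` over
a field `K`, with messages in `K ^ W`, bond dimension `card W ≤ w`, which reads every digit at most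
once. -/
def TreeSet (w : ℕ) {m : ℕ} (F : Set (Fin m → Bool)) : Prop :=
  ∃ (K : Type) (_ : Field K) (W : Type) (_ : Fintype W) (D : Net K (Fin m) Bool W)
    (φ : (W → K) →ₗ[K] K), Fintype.card W ≤ w ∧ D.ReadOnce ∧ F = {x | φ (D.eval x) ≠ 0}

/-- `F` is the union of `L` tree sets of bond dimension at most `w` -/
def TreeUnion (L w : ℕ) {m : ℕ} (F : Set (Fin m → Bool)) : Prop :=
  ∃ T : Fin L → Set (Fin m → Bool), (∀ j, TreeSet w (T j)) ∧ F = ⋃ j, T j

/-- cubes give many representations -/
lemma reps_of_cube {m t : ℕ} {A : Set ℕ} (h : HasCube t (digits m A)) :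
    ∃ n < 2 ^ (m + 1), 2 ^ t ≤ reps A n := by
  obtain ⟨x, y, lab, h1, h2⟩ := h
  have hsum : ∀ ε : ℕ → Bool, val (fun i => if ε (lab i) = true then y i else x i) +
      val (fun i => if (!(ε (lab i))) = true then y i else x i) = val x + val y := by
    intro ε
    unfold val
    rw [← sum_add_distrib, ← sum_add_distrib]
    refine sum_congr rfl fun i _ => ?_
    cases hε : ε (lab i)
    · simp [hε]
    · simp [hε, add_comm]
  refine ⟨val x + val y, ?_, ?_⟩
  · have h3 := val_lt x
    have h4 := val_lt y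
    rw [pow_succ]
    omega
  · have hfin := finite_reps A (val x + val y)
    unfold reps
    have hc : 2 ^ t = Nat.card (Fin t → Bool) := by
      rw [Nat.card_eq_fintype_card]
      simp
    rw [hc]
    let ex : (Fin t → Bool) → ℕ → Bool := fun ε j => if h : j < t then ε ⟨j, h⟩ else false
    refine Nat.card_le_card_of_injective (fun ε : Fin t → Bool =>
      (⟨(val (fun i => if ex ε (lab i) = true then y i else x i),
        val (fun i => if (!(ex ε (lab i))) = true then y i else x i)),
        h2 (ex ε), h2 (fun j => !(ex ε j)), hsum (ex ε)⟩ :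
        {ab : ℕ × ℕ // ab.1 ∈ A ∧ ab.2 ∈ A ∧ ab.1 + ab.2 = val x + val y})) ?_
    intro ε ε' hεε
    have h3 := congrArg (fun z => z.1.1) hεε
    simp only at h3
    have h4 := val_inj h3
    funext j
    obtain ⟨i, hi, hne⟩ := h1 j j.2
    have h5 := congrFun h4 i
    simp only [hi, ex, j.2, dite_true, Fin.eta] at h5
    cases hε : ε j <;> cases hε' : ε' j <;> simp [hε, hε'] at h5 ⊢
    · exact hne h5
    · exact hne h5.symm

open Classical in
lemma tree_set_bound {m t w J : ℕ} (hw : 1 ≤ w) (hJ : m * 2 ^ J ≤ 3 ^ J)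
    (F : Set (Fin m → Bool)) (hF : TreeSet w F) (hc : ¬ HasCube (t + 1) F) :
    (univ.filter fun x => x ∈ F).card ≤ Bd 2 t w J := by
  obtain ⟨K, _, W, _, D, φ, hW, hD, rfl⟩ := hF
  have h := cube_main (ι := Fin m) (α := Bool) (q := 2) le_rfl (by simp)
    {S | Rk w S (fun x => φ (D.eval x))} (fun V hV => by
      obtain ⟨S, h1, h2, h3⟩ := exists_cut D hD φ hW hw V hV
      exact ⟨S, h1, h2, h3⟩) t w J (fun x => φ (D.eval x)) univ (fun _ => false) hw
    (fun S hS => hS) (by rw [card_univ, Fintype.card_fin]; exact hJ) (fun h => hc (h.mono fun x hx => hx.2))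
  refine le_trans (le_of_eq ?_) h
  congr 1
  ext x
  simp [Sl]

open Classical in
/-- the bound for the number of elements -/
theorem tree_reps_bound (m t w L J : ℕ) (hw : 1 ≤ w) (hJ : m * 2 ^ J ≤ 3 ^ J) (A : Set ℕ)
    (hA : TreeUnion L w (digits m A))
    (h : L * (2 * w ^ (2 ^ (t + 1))) ^ ((2 * J + 2) ^ t) <
      Nat.card {a : ℕ // a ∈ A ∧ a < 2 ^ m}) :
    ∃ n < 2 ^ (m + 1), 2 ^ (t + 1) ≤ reps A n := by
  by_contra hcon
  apply absurd h
  rw [not_lt, card_digits]
  obtain ⟨T, hT, hTU⟩ := hA
  have h1 : univ.filter (fun x => x ∈ digits m A) ⊆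
      (univ : Finset (Fin L)).biUnion (fun j => univ.filter (fun x => x ∈ T j)) := by
    intro x hx
    have hx' := (Finset.mem_filter.1 hx).2
    rw [hTU] at hx'
    obtain ⟨j, hj⟩ := Set.mem_iUnion.1 hx'
    exact Finset.mem_biUnion.2 ⟨j, Finset.mem_univ _, Finset.mem_filter.2 ⟨Finset.mem_univ _, hj⟩⟩
  refine (card_le_card h1).trans (card_biUnion_le.trans ?_)
  calc ∑ j : Fin L, (univ.filter (fun x => x ∈ T j)).card ≤ ∑ _j : Fin L, Bd 2 t w J := by
        refine sum_le_sum fun j _ => tree_set_bound hw hJ (T j) (hT j) fun hc => hcon ?_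
        refine reps_of_cube (hc.mono ?_)
        rw [hTU]
        exact Set.subset_iUnion T j
    _ = L * Bd 2 t w J := by rw [sum_const, card_univ, Fintype.card_fin, smul_eq_mul]
    _ = _ := rfl

end Pool.Agent.R756.KT
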