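import Pool.Agent.R756.TN.Core

/-!
Families of vectors in a space of small dimension: all but few of them are spanned many times.
-/

set_option autoImplicit false

namespace Pool.Agent.R756.KT

open Finset

/-- the vectors `g a`, `a ∈ A`, are detected by at most `d` of them -/
lemma detect {K κ U : Type} [Field K] [Fintype κ] [DecidableEq U] (A : Finset U)
    (g : U → κ → K) :
    ∃ E : Finset U, E ⊆ A ∧ E.card ≤ Fintype.card κ ∧ ∀ c : κ → K, ∀ a ∈ A,
      ∑ k, g a k * c k ≠ 0 → ∃ e ∈ E, ∑ k, g e k * c k ≠ 0 := by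
  classical
  obtain ⟨E, hE, h⟩ := Pool.Agent.R756.TN.exists_detect (U := {a // a ∈ A})
    (fun k a => g a.1 k)
  refine ⟨E.image Subtype.val, ?_, card_image_le.trans hE, ?_⟩
  · intro x hx
    obtain ⟨y, -, rfl⟩ := mem_image.1 hx
    exact y.2
  · intro c a ha hne
    by_contra hno
    push Not at hno
    exact hne (h c (fun u hu => hno u.1 (mem_image_of_mem _ hu)) ⟨a, ha⟩)

lemma layers {K κ U : Type} [Field K] [Fintype κ] [DecidableEq U] {d : ℕ}
    (hd : Fintype.card κ ≤ d) (g : U → κ → K) (r : ℕ) : ∀ A : Finset U,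
    ∃ Bad : Finset U, Bad ⊆ A ∧ Bad.card ≤ r * d ∧ ∀ a ∈ A, a ∉ Bad →
      ∀ (V : Type) (M : ℕ) (N : Finset V) (h : V → κ → K),
      (∀ v ∈ N, ∑ k, g a k * h v k ≠ 0) → M * d ^ r < N.card →
      ∃ R : Finset U, R ⊆ Bad ∧ R.card = r ∧ ∃ N' : Finset V, N' ⊆ N ∧ M < N'.card ∧
        ∀ i ∈ R, ∀ v ∈ N', ∑ k, g i k * h v k ≠ 0 := by
  induction r with
  | zero =>
    intro A
    refine ⟨∅, by simp, by simp, fun a _ _ V M N h _ hN => ⟨∅, by simp, rfl, N, Subset.refl _, ?_, by simp⟩⟩
    simpa using hN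
  | succ r ih =>
    intro A
    obtain ⟨E, hEA, hE, hdet⟩ := detect A g
    obtain ⟨Bad, hB1, hB2, hB3⟩ := ih (A \ E)
    refine ⟨E ∪ Bad, union_subset hEA (hB1.trans sdiff_subset), ?_, ?_⟩
    · refine (card_union_le _ _).trans ?_
      have := hE.trans hd
      rw [Nat.succ_mul]
      omega
    · intro a ha hna V M N h hN hc
      classical
      rw [mem_union, not_or] at hna
      -- pigeonhole
      have hex : ∃ e ∈ E, M * d ^ r < (N.filter fun v => ∑ k, g e k * h v k ≠ 0).card := by
        by_contra hno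
        push Not at hno
        have h1 : N ⊆ E.biUnion fun e => N.filter fun v => ∑ k, g e k * h v k ≠ 0 := by
          intro v hv
          obtain ⟨e, he, hev⟩ := hdet (h v) a ha (hN v hv)
          rw [mem_biUnion]
          exact ⟨e, he, mem_filter.2 ⟨hv, hev⟩⟩
        have h2 := (card_le_card h1).trans card_biUnion_le
        have h3 : ∑ e ∈ E, (N.filter fun v => ∑ k, g e k * h v k ≠ 0).card ≤
            E.card * (M * d ^ r) := by
          rw [← smul_eq_mul]
          exact sum_le_card_nsmul _ _ _ hno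
        have h4 : E.card * (M * d ^ r) ≤ d * (M * d ^ r) :=
          Nat.mul_le_mul_right _ (hE.trans hd)
        have h5 : d * (M * d ^ r) = M * d ^ (r + 1) := by ring
        omega
      obtain ⟨e, he, hec⟩ := hex
      obtain ⟨R, hR1, hR2, N', hN1, hN2, hN3⟩ := hB3 a (mem_sdiff.2 ⟨ha, hna.1⟩) hna.2 V M _ h
        (fun v hv => hN v (mem_filter.1 hv).1) hec
      have heR : e ∉ R := fun hh => (mem_sdiff.1 (hB1 (hR1 hh))).2 he
      refine ⟨insert e R, ?_, ?_, N', hN1.trans (filter_subset _ _), hN2, ?_⟩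
      · intro x hx
        rcases mem_insert.1 hx with rfl | hx
        · exact mem_union_left _ he
        · exact mem_union_right _ (hR1 hx)
      · rw [card_insert_of_notMem heR, hR2]
      · intro i hi v hv
        rcases mem_insert.1 hi with rfl | hi
        · exact (mem_filter.1 (hN1 hv)).2
        · exact hN3 i hi v hv

end Pool.Agent.R756.KT
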