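import Pool.Agent.R756.KT.Step

/-!
The recursion over balanced cuts.
-/

set_option autoImplicit false

namespace Pool.Agent.R756.KT

open Finset Pool.Agent.R756.TN

section

variable {ι α K : Type} [Fintype ι] [DecidableEq ι] [Fintype α] [DecidableEq α] [Field K]
  [DecidableEq K]

/-- the assignments which agree with `z0` outside `W` -/
def Sl (W : Finset ι) (z0 : ι → α) : Finset (ι → α) :=
  univ.filter fun z => ∀ i, i ∉ W → z i = z0 i

lemma mem_Sl {W : Finset ι} {z0 z : ι → α} : z ∈ Sl W z0 ↔ ∀ i, i ∉ W → z i = z0 i := by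
  simp [Sl]

lemma card_Sl (W : Finset ι) (z0 : ι → α) : (Sl W z0).card = Fintype.card α ^ W.card := by
  have h1 : Sl W z0 = Fintype.piFinset fun i => if i ∈ W then (univ : Finset α) else {z0 i} := by
    ext z
    rw [mem_Sl, Fintype.mem_piFinset]
    refine forall_congr' fun i => ?_
    by_cases h : i ∈ W <;> simp [h]
  have h2 : ∀ i, (if i ∈ W then (univ : Finset α) else {z0 i}).card =
      if i ∈ W then Fintype.card α else 1 := by
    intro i
    split_ifs <;> simp
  rw [h1, Fintype.card_piFinset]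
  simp only [h2]
  rw [prod_ite, prod_const, prod_const_one, mul_one]
  simp

/-- the support, as a bipartite graph between the assignments of `X` and those of its complement,
contains no `K_{s,t}` -/
def Free (s t : ℕ) (X : Finset ι) (f : (ι → α) → K) : Prop :=
  ∀ R T : Finset (ι → α), s ≤ R.card → t ≤ T.card →
    (∀ x ∈ R, ∀ x' ∈ R, (∀ i ∈ X, x i = x' i) → x = x') →
    (∀ y ∈ T, ∀ y' ∈ T, (∀ i, i ∉ X → y i = y' i) → y = y') →
    ∃ x ∈ R, ∃ y ∈ T, f (X.piecewise x y) = 0

/-- combination of four partial assignments -/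
def cb (P Q X : Finset ι) (z0 a b c e : ι → α) : ι → α := fun i =>
  if i ∈ P then (if i ∈ X then a i else b i)
  else if i ∈ Q then (if i ∈ X then c i else e i) else z0 i

lemma one_level {d s t c τ : ℕ} (hs : 1 ≤ s) (ht : 1 ≤ t)
    (hc1 : (s - 1) * d ≤ c) (hc2 : (t - 1) * d ≤ c) (hc3 : (t - 1) * d ^ (s - 1) ≤ c)
    (hc4 : (s - 1) * d ^ (t - 1) ≤ c) (hc5 : d ≤ c) (hc : 1 ≤ c) (hτ : 1 ≤ τ)
    (X : Finset ι) (f : (ι → α) → K) (hfree : Free s t X f) (W S P Q : Finset ι)
    (hS : Rk d S f) (hP : P = W ∩ S) (hQ : Q = W \ S)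
    (h1 : ∀ z : ι → α, ((Sl P z).filter fun z => f z ≠ 0).card ≤
      τ * max (Fintype.card α ^ (P ∩ X).card) (Fintype.card α ^ (P \ X).card))
    (h2 : ∀ z : ι → α, ((Sl Q z).filter fun z => f z ≠ 0).card ≤
      τ * max (Fintype.card α ^ (Q ∩ X).card) (Fintype.card α ^ (Q \ X).card)) (z0 : ι → α) :
    ((Sl W z0).filter fun z => f z ≠ 0).card ≤
      4 * c ^ 2 * τ * max (Fintype.card α ^ (W ∩ X).card) (Fintype.card α ^ (W \ X).card) := by
  obtain ⟨κ, hκ, a, b, hd, ha, hb, hf⟩ := hS
  have hPQ : ∀ i, i ∈ P → i ∉ Q := by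
    intro i h h'
    rw [hP, mem_inter] at h
    rw [hQ, mem_sdiff] at h'
    exact h'.2 h.2
  have hPS : ∀ i, i ∈ P → i ∈ S := fun i h => by
    rw [hP, mem_inter] at h
    exact h.2
  have hQS : ∀ i, i ∈ Q → i ∉ S := fun i h => by
    rw [hQ, mem_sdiff] at h
    exact h.2
  have hWPQ : ∀ i, i ∈ W ↔ (i ∈ P ∨ i ∈ Q) := by
    intro i
    rw [hP, hQ, mem_inter, mem_sdiff]
    tauto
  have hc1' : Fintype.card {z // z ∈ Sl (P ∩ X) z0} = Fintype.card α ^ (P ∩ X).card := by
    rw [Fintype.card_coe, card_Sl]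
  have hc2' : Fintype.card {z // z ∈ Sl (P \ X) z0} = Fintype.card α ^ (P \ X).card := by
    rw [Fintype.card_coe, card_Sl]
  have hc3' : Fintype.card {z // z ∈ Sl (Q ∩ X) z0} = Fintype.card α ^ (Q ∩ X).card := by
    rw [Fintype.card_coe, card_Sl]
  have hc4' : Fintype.card {z // z ∈ Sl (Q \ X) z0} = Fintype.card α ^ (Q \ X).card := by
    rw [Fintype.card_coe, card_Sl]
  have ext1 : ∀ {u v : ι → α} {V : Finset ι}, u ∈ Sl V z0 → v ∈ Sl V z0 →
      (∀ i ∈ V, u i = v i) → u = v := by
    intro u v V hu hv huv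
    funext i
    by_cases hi : i ∈ V
    · exact huv i hi
    · rw [mem_Sl.1 hu i hi, mem_Sl.1 hv i hi]
  have key := step (K := K) (A1 := {z // z ∈ Sl (P ∩ X) z0}) (B1 := {z // z ∈ Sl (P \ X) z0})
    (A2 := {z // z ∈ Sl (Q ∩ X) z0}) (B2 := {z // z ∈ Sl (Q \ X) z0}) hd hs ht hc1 hc2 hc3 hc4
    hc5 hc hτ (fun a1 b1 a2 b2 => f (cb P Q X z0 a1.1 b1.1 a2.1 b2.1))
    (fun k a1 b1 => a k (cb P Q X z0 a1.1 b1.1 z0 z0))
    (fun k a2 b2 => b k (cb P Q X z0 z0 z0 a2.1 b2.1)) (by
      intro a1 b1 a2 b2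
      rw [hf]
      refine sum_congr rfl fun k _ => ?_
      congr 1
      · refine ha k _ _ fun i hi => ?_
        have hiQ : i ∉ Q := fun h => hQS i h hi
        simp [cb, hiQ]
      · refine hb k _ _ fun i hi => ?_
        have hiP : i ∉ P := fun h => hi (hPS i h)
        simp [cb, hiP]) (by
      intro R T hR hT
      obtain ⟨x, hx, y, hy, hxy⟩ := hfree
        (R.image fun p => cb P Q X z0 p.1.1 z0 p.2.1 z0)
        (T.image fun q => cb P Q X z0 z0 q.1.1 z0 q.2.1) (by
          rw [card_image_of_injective]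
          · exact hR
          · intro p p' hpp
            refine Prod.ext (Subtype.ext (ext1 p.1.2 p'.1.2 fun i hi => ?_))
              (Subtype.ext (ext1 p.2.2 p'.2.2 fun i hi => ?_))
            · rw [mem_inter] at hi
              have := congrFun hpp i
              simpa [cb, hi.1, hi.2] using this
            · rw [mem_inter] at hi
              have hiP : i ∉ P := fun h => hPQ i h hi.1
              have := congrFun hpp i
              simpa [cb, hiP, hi.1, hi.2] using this) (by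
          rw [card_image_of_injective]
          · exact hT
          · intro p p' hpp
            refine Prod.ext (Subtype.ext (ext1 p.1.2 p'.1.2 fun i hi => ?_))
              (Subtype.ext (ext1 p.2.2 p'.2.2 fun i hi => ?_))
            · rw [mem_sdiff] at hi
              have := congrFun hpp i
              simpa [cb, hi.1, hi.2] using this
            · rw [mem_sdiff] at hi
              have hiP : i ∉ P := fun h => hPQ i h hi.1
              have := congrFun hpp i
              simpa [cb, hiP, hi.1, hi.2] using this) (by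
          intro x hx x' hx' hxx
          obtain ⟨p, -, rfl⟩ := mem_image.1 hx
          obtain ⟨p', -, rfl⟩ := mem_image.1 hx'
          funext i
          by_cases hi : i ∈ X
          · exact hxx i hi
          · simp [cb, hi]) (by
          intro x hx x' hx' hxx
          obtain ⟨p, -, rfl⟩ := mem_image.1 hx
          obtain ⟨p', -, rfl⟩ := mem_image.1 hx'
          funext i
          by_cases hi : i ∈ X
          · simp [cb, hi]
          · exact hxx i hi)
      obtain ⟨p, hp, rfl⟩ := mem_image.1 hx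
      obtain ⟨q, hq, rfl⟩ := mem_image.1 hy
      refine ⟨p, hp, q, hq, ?_⟩
      rw [← hxy]
      congr 1
      funext i
      by_cases hi : i ∈ X
      · simp [cb, hi]
      · simp [cb, hi]) (by
      intro a2 b2
      rw [hc1', hc2']
      refine le_trans ?_ (h1 (cb P Q X z0 z0 z0 a2.1 b2.1))
      refine card_le_card_of_injOn (fun p => cb P Q X z0 p.1.1 p.2.1 a2.1 b2.1) ?_ ?_
      · intro p hp
        rw [mem_coe, mem_filter] at hp
        rw [mem_coe, mem_filter, mem_Sl]
        refine ⟨fun i hi => ?_, hp.2⟩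
        simp [cb, hi]
      · intro p _ p' _ hpp
        refine Prod.ext (Subtype.ext (ext1 p.1.2 p'.1.2 fun i hi => ?_))
          (Subtype.ext (ext1 p.2.2 p'.2.2 fun i hi => ?_))
        · rw [mem_inter] at hi
          have := congrFun hpp i
          simpa [cb, hi.1, hi.2] using this
        · rw [mem_sdiff] at hi
          have := congrFun hpp i
          simpa [cb, hi.1, hi.2] using this) (by
      intro a1 b1
      rw [hc3', hc4']
      refine le_trans ?_ (h2 (cb P Q X z0 a1.1 b1.1 z0 z0))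
      refine card_le_card_of_injOn (fun p => cb P Q X z0 a1.1 b1.1 p.1.1 p.2.1) ?_ ?_
      · intro p hp
        rw [mem_coe, mem_filter] at hp
        rw [mem_coe, mem_filter, mem_Sl]
        refine ⟨fun i hi => ?_, hp.2⟩
        simp [cb, hi]
      · intro p _ p' _ hpp
        refine Prod.ext (Subtype.ext (ext1 p.1.2 p'.1.2 fun i hi => ?_))
          (Subtype.ext (ext1 p.2.2 p'.2.2 fun i hi => ?_))
        · rw [mem_inter] at hi
          have hiP : i ∉ P := fun h => hPQ i h hi.1
          have := congrFun hpp i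
          simpa [cb, hiP, hi.1, hi.2] using this
        · rw [mem_sdiff] at hi
          have hiP : i ∉ P := fun h => hPQ i h hi.1
          have := congrFun hpp i
          simpa [cb, hiP, hi.1, hi.2] using this)
  have eX : (W ∩ X).card = (P ∩ X).card + (Q ∩ X).card := by
    rw [← card_union_of_disjoint]
    · congr 1
      ext i
      rw [mem_union, mem_inter, mem_inter, mem_inter, hWPQ]
      tauto
    · rw [disjoint_left]
      intro i hi hi'
      exact hPQ i (mem_inter.1 hi).1 (mem_inter.1 hi').1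
  have eY : (W \ X).card = (P \ X).card + (Q \ X).card := by
    rw [← card_union_of_disjoint]
    · congr 1
      ext i
      rw [mem_union, mem_sdiff, mem_sdiff, mem_sdiff, hWPQ]
      tauto
    · rw [disjoint_left]
      intro i hi hi'
      exact hPQ i (mem_sdiff.1 hi).1 (mem_sdiff.1 hi').1
  rw [hc1', hc2', hc3', hc4'] at key
  rw [eX, eY, pow_add, pow_add]
  refine le_trans ?_ key
  let rs : Finset ι → (ι → α) → (ι → α) := fun V z => V.piecewise z z0
  have hrs : ∀ V z, rs V z ∈ Sl V z0 := fun V z => mem_Sl.2 fun i hi => by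
    simp [rs, hi]
  have hcb : ∀ z ∈ Sl W z0, cb P Q X z0 (rs (P ∩ X) z) (rs (P \ X) z) (rs (Q ∩ X) z)
      (rs (Q \ X) z) = z := by
    intro z hz
    funext i
    by_cases hiP : i ∈ P
    · by_cases hiX : i ∈ X <;> simp [cb, rs, hiP, hiX]
    · by_cases hiQ : i ∈ Q
      · by_cases hiX : i ∈ X <;> simp [cb, rs, hiP, hiQ, hiX]
      · have hiW : i ∉ W := by
          rw [hWPQ]
          tauto
        simp [cb, hiP, hiQ, mem_Sl.1 hz i hiW]
  refine card_le_card_of_injOn (fun z => ((⟨rs (P ∩ X) z, hrs _ _⟩, ⟨rs (P \ X) z, hrs _ _⟩),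
    (⟨rs (Q ∩ X) z, hrs _ _⟩, ⟨rs (Q \ X) z, hrs _ _⟩))) ?_ ?_
  · intro z hz
    rw [mem_coe, mem_filter] at hz
    rw [mem_coe, mem_filter]
    refine ⟨mem_univ _, ?_⟩
    simp only
    rw [hcb z hz.1]
    exact hz.2
  · intro z hz z' hz' hzz
    rw [mem_coe, mem_filter] at hz hz'
    simp only [Prod.mk.injEq, Subtype.mk.injEq] at hzz
    rw [← hcb z hz.1, ← hcb z' hz'.1, hzz.1.1, hzz.1.2, hzz.2.1, hzz.2.2]

lemma base_level (X W : Finset ι) (f : (ι → α) → K) (z0 : ι → α) (hW : W.card ≤ 1) :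
    ((Sl W z0).filter fun z => f z ≠ 0).card ≤
      max (Fintype.card α ^ (W ∩ X).card) (Fintype.card α ^ (W \ X).card) := by
  refine (card_filter_le _ _).trans ?_
  rw [card_Sl]
  have h1 : W ∩ X = W ∨ W \ X = W := by
    rw [Finset.card_le_one] at hW
    by_cases hex : ∃ i ∈ W, i ∈ X
    · obtain ⟨i, hi, hiX⟩ := hex
      left
      rw [inter_eq_left]
      intro j hj
      rw [hW j hj i hi]
      exact hiX
    · right
      ext j
      rw [mem_sdiff]
      exact ⟨fun h => h.1, fun h => ⟨h, fun h' => hex ⟨j, h, h'⟩⟩⟩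
  rcases h1 with h1 | h1
  · rw [h1]
    exact le_max_left _ _
  · rw [h1]
    exact le_max_right _ _

theorem main {d s t c : ℕ} (hs : 1 ≤ s) (ht : 1 ≤ t)
    (hc1 : (s - 1) * d ≤ c) (hc2 : (t - 1) * d ≤ c) (hc3 : (t - 1) * d ^ (s - 1) ≤ c)
    (hc4 : (s - 1) * d ^ (t - 1) ≤ c) (hc5 : d ≤ c) (hc : 1 ≤ c)
    (X : Finset ι) (f : (ι → α) → K) (hfree : Free s t X f)
    (hbal : ∀ W : Finset ι, 2 ≤ W.card → ∃ S : Finset ι, Rk d S f ∧
      3 * (W ∩ S).card ≤ 2 * W.card ∧ 3 * (W \ S).card ≤ 2 * W.card) (J : ℕ) :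
    ∀ (W : Finset ι) (z0 : ι → α), W.card * 2 ^ J ≤ 3 ^ J →
      ((Sl W z0).filter fun z => f z ≠ 0).card ≤
        (4 * c ^ 2) ^ J * max (Fintype.card α ^ (W ∩ X).card) (Fintype.card α ^ (W \ X).card) := by
  induction J with
  | zero =>
    intro W z0 hW
    rw [pow_zero, one_mul]
    exact base_level X W f z0 (by simpa using hW)
  | succ J ih =>
    intro W z0 hW
    have hpos : 1 ≤ 4 * c ^ 2 := by
      have : 1 ≤ c ^ 2 := Nat.one_le_pow _ _ hc
      omega
    by_cases h1 : W.card ≤ 1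
    · refine (base_level X W f z0 h1).trans ?_
      exact Nat.le_mul_of_pos_left _ (pow_pos hpos _)
    · obtain ⟨S, hS, h2, h3⟩ := hbal W (by omega)
      have hp2 : 0 < 2 ^ J := by positivity
      have e2 : 2 ^ (J + 1) = 2 * 2 ^ J := by ring
      have e3 : 3 ^ (J + 1) = 3 * 3 ^ J := by ring
      rw [e2, e3] at hW
      have h4 : (W ∩ S).card * 2 ^ J ≤ 3 ^ J := by
        have : 3 * (W ∩ S).card * 2 ^ J ≤ 2 * W.card * 2 ^ J := Nat.mul_le_mul_right _ h2
        nlinarith
      have h5 : (W \ S).card * 2 ^ J ≤ 3 ^ J := by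
        have : 3 * (W \ S).card * 2 ^ J ≤ 2 * W.card * 2 ^ J := Nat.mul_le_mul_right _ h3
        nlinarith
      have h6 := one_level (τ := (4 * c ^ 2) ^ J) hs ht hc1 hc2 hc3 hc4 hc5 hc
        (Nat.one_le_pow _ _ hpos) X f hfree W S (W ∩ S) (W \ S) hS rfl rfl
        (fun z => ih _ z h4) (fun z => ih _ z h5) z0
      refine h6.trans (le_of_eq ?_)
      rw [pow_succ (4 * c ^ 2) J]
      ring

end

end Pool.Agent.R756.KT
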