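import Pool.Agent.R756.KT.Layers

/-!
One step of the recursion: a bipartite graph on `(A₁ × A₂) × (B₁ × B₂)` without `K_{s,t}` which is
the support of a function of small rank between the variables `(a₁, b₁)` and `(a₂, b₂)`.
-/

set_option autoImplicit false

namespace Pool.Agent.R756.KT

open Finset

section

variable {K κ A1 B1 A2 B2 : Type} [Field K] [Fintype κ] [Fintype A1] [Fintype B1] [Fintype A2]
  [Fintype B2] [DecidableEq K] [DecidableEq A1] [DecidableEq B1] [DecidableEq A2] [DecidableEq B2]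

omit [Fintype B1] [Fintype A2] in
/-- all but few of the `a₁` (for given `b₁`) have small degrees -/
lemma few_bad {d s t : ℕ} (hd : Fintype.card κ ≤ d) (hs : 1 ≤ s) (ht : 1 ≤ t)
    (F : A1 → B1 → A2 → B2 → K) (g : κ → A1 → B1 → K) (h : κ → A2 → B2 → K)
    (hF : ∀ a1 b1 a2 b2, F a1 b1 a2 b2 = ∑ k, g k a1 b1 * h k a2 b2)
    (hfree : ∀ (R : Finset (A1 × A2)) (T : Finset (B1 × B2)), s ≤ R.card → t ≤ T.card →
      ∃ p ∈ R, ∃ q ∈ T, F p.1 q.1 p.2 q.2 = 0) (b1 : B1) :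
    ∃ Bad : Finset A1, Bad.card ≤ (s - 1) * d ∧ ∀ a1, a1 ∉ Bad → ∀ a2,
      (univ.filter fun b2 => F a1 b1 a2 b2 ≠ 0).card ≤ (t - 1) * d ^ (s - 1) := by
  obtain ⟨Bad, -, h2, h3⟩ := layers hd (fun a k => g k a b1) (s - 1) (univ : Finset A1)
  refine ⟨Bad, h2, fun a1 ha1 a2 => ?_⟩
  by_contra hno
  push Not at hno
  obtain ⟨R, hR1, hR2, N', hN1, hN2, hN3⟩ := h3 a1 (mem_univ _) ha1 B2 (t - 1)
    (univ.filter fun b2 => F a1 b1 a2 b2 ≠ 0) (fun b2 k => h k a2 b2)
    (fun v hv => by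
      have := (mem_filter.1 hv).2
      rwa [hF] at this) hno
  have haR : a1 ∉ R := fun hh => ha1 (hR1 hh)
  obtain ⟨p, hp, q, hq, hpq⟩ := hfree ((insert a1 R).image fun a => (a, a2))
    (N'.image fun b => (b1, b)) (by
      rw [card_image_of_injective _ (fun x y hxy => (Prod.ext_iff.1 hxy).1),
        card_insert_of_notMem haR, hR2]
      omega) (by
      rw [card_image_of_injective _ (fun x y hxy => (Prod.ext_iff.1 hxy).2)]
      omega)
  obtain ⟨a, ha, rfl⟩ := mem_image.1 hp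
  obtain ⟨b, hb, rfl⟩ := mem_image.1 hq
  simp only at hpq
  rcases mem_insert.1 ha with rfl | ha
  · exact (mem_filter.1 (hN1 hb)).2 hpq
  · rw [hF] at hpq
    exact hN3 a ha b hb hpq

/-- the number of nonzero rows -/
lemma few_rows {d T1 : ℕ} (hd : Fintype.card κ ≤ d)
    (F : A1 → B1 → A2 → B2 → K) (g : κ → A1 → B1 → K) (h : κ → A2 → B2 → K)
    (hF : ∀ a1 b1 a2 b2, F a1 b1 a2 b2 = ∑ k, g k a1 b1 * h k a2 b2)
    (h1 : ∀ a2 b2, (univ.filter fun p : A1 × B1 => F p.1 p.2 a2 b2 ≠ 0).card ≤ T1) :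
    (univ.filter fun p : A1 × B1 => ∃ a2 b2, F p.1 p.2 a2 b2 ≠ 0).card ≤ d * T1 := by
  obtain ⟨E, -, hE, hdet⟩ := detect (univ : Finset (A2 × B2)) (fun q k => h k q.1 q.2)
  have hsub : (univ.filter fun p : A1 × B1 => ∃ a2 b2, F p.1 p.2 a2 b2 ≠ 0) ⊆
      E.biUnion fun q => univ.filter fun p : A1 × B1 => F p.1 p.2 q.1 q.2 ≠ 0 := by
    intro p hp
    obtain ⟨a2, b2, hne⟩ := (mem_filter.1 hp).2
    rw [hF] at hne
    obtain ⟨e, he, hne'⟩ := hdet (fun k => g k p.1 p.2) (a2, b2) (mem_univ _) (by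
      simpa only [mul_comm] using hne)
    rw [mem_biUnion]
    refine ⟨e, he, mem_filter.2 ⟨mem_univ _, ?_⟩⟩
    rw [hF]
    simpa only [mul_comm] using hne'
  refine (card_le_card hsub).trans (card_biUnion_le.trans ?_)
  calc ∑ e ∈ E, (univ.filter fun p : A1 × B1 => F p.1 p.2 e.1 e.2 ≠ 0).card ≤ E.card * T1 := by
        rw [← smul_eq_mul]
        exact sum_le_card_nsmul _ _ _ fun e _ => h1 e.1 e.2
    _ ≤ d * T1 := Nat.mul_le_mul_right _ (hE.trans hd)

omit [DecidableEq A2] [DecidableEq B2] in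
lemma card_pairs_le (P : A2 → B2 → Prop) [∀ a b, Decidable (P a b)] (m : ℕ)
    (h : ∀ a2, (univ.filter fun b2 => P a2 b2).card ≤ m) :
    (univ.filter fun q : A2 × B2 => P q.1 q.2).card ≤ Fintype.card A2 * m := by
  have e : (univ.filter fun q : A2 × B2 => P q.1 q.2).card =
      ∑ a2, (univ.filter fun b2 => P a2 b2).card := by
    rw [card_filter, Fintype.sum_prod_type]
    exact sum_congr rfl fun a _ => (card_filter _ _).symm
  rw [e, ← smul_eq_mul, ← card_univ]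
  exact sum_le_card_nsmul _ _ _ fun a _ => h a

omit [DecidableEq A2] [DecidableEq B2] in
lemma card_pairs_le' (P : A2 → B2 → Prop) [∀ a b, Decidable (P a b)] (m : ℕ)
    (h : ∀ b2, (univ.filter fun a2 => P a2 b2).card ≤ m) :
    (univ.filter fun q : A2 × B2 => P q.1 q.2).card ≤ Fintype.card B2 * m := by
  have h1 := card_pairs_le (A2 := B2) (B2 := A2) (fun b a => P a b) m h
  refine le_trans (le_of_eq ?_) h1
  refine card_bij (fun q _ => (q.2, q.1)) ?_ ?_ ?_
  · intro q hq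
    simpa using hq
  · intro p _ q _ hpq
    simp only [Prod.mk.injEq] at hpq
    exact Prod.ext hpq.2 hpq.1
  · intro q hq
    exact ⟨(q.2, q.1), by simpa using hq, rfl⟩

lemma min_mul_nat (a b c : ℕ) : min a b * c = min (a * c) (b * c) := by
  rcases le_total a b with h | h
  · rw [min_eq_left h, min_eq_left (Nat.mul_le_mul_right c h)]
  · rw [min_eq_right h, min_eq_right (Nat.mul_le_mul_right c h)]

theorem step {d s t c τ : ℕ} (hd : Fintype.card κ ≤ d) (hs : 1 ≤ s) (ht : 1 ≤ t)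
    (hc1 : (s - 1) * d ≤ c) (hc2 : (t - 1) * d ≤ c) (hc3 : (t - 1) * d ^ (s - 1) ≤ c)
    (hc4 : (s - 1) * d ^ (t - 1) ≤ c) (hc5 : d ≤ c) (_hc : 1 ≤ c) (hτ : 1 ≤ τ)
    (F : A1 → B1 → A2 → B2 → K) (g : κ → A1 → B1 → K) (h : κ → A2 → B2 → K)
    (hF : ∀ a1 b1 a2 b2, F a1 b1 a2 b2 = ∑ k, g k a1 b1 * h k a2 b2)
    (hfree : ∀ (R : Finset (A1 × A2)) (T : Finset (B1 × B2)), s ≤ R.card → t ≤ T.card →
      ∃ p ∈ R, ∃ q ∈ T, F p.1 q.1 p.2 q.2 = 0)
    (h1 : ∀ a2 b2, (univ.filter fun p : A1 × B1 => F p.1 p.2 a2 b2 ≠ 0).card ≤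
      τ * max (Fintype.card A1) (Fintype.card B1))
    (h2 : ∀ a1 b1, (univ.filter fun q : A2 × B2 => F a1 b1 q.1 q.2 ≠ 0).card ≤
      τ * max (Fintype.card A2) (Fintype.card B2)) :
    (univ.filter fun z : (A1 × B1) × (A2 × B2) => F z.1.1 z.1.2 z.2.1 z.2.2 ≠ 0).card ≤
      4 * c ^ 2 * τ * max (Fintype.card A1 * Fintype.card A2)
        (Fintype.card B1 * Fintype.card B2) := by
  have hA := few_bad hd hs ht F g h hF hfree
  have hB := few_bad (A1 := B1) (B1 := A1) (A2 := B2) (B2 := A2) hd ht hs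
    (fun b1 a1 b2 a2 => F a1 b1 a2 b2) (fun k b1 a1 => g k a1 b1) (fun k b2 a2 => h k a2 b2)
    (fun b1 a1 b2 a2 => hF a1 b1 a2 b2) (fun R T hR hT => by
      obtain ⟨p, hp, q, hq, e⟩ := hfree T R hT hR
      exact ⟨q, hq, p, hp, e⟩)
  choose BA hBA1 hBA2 using hA
  choose BB hBB1 hBB2 using hB
  set x1 := Fintype.card A1 with hx1
  set y1 := Fintype.card B1 with hy1
  set x2 := Fintype.card A2 with hx2
  set y2 := Fintype.card B2 with hy2
  let SA : Finset (A1 × B1) := univ.filter fun p => p.1 ∈ BA p.2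
  let SB : Finset (A1 × B1) := univ.filter fun p => p.2 ∈ BB p.1
  let NZ : Finset (A1 × B1) := univ.filter fun p => ∃ a2 b2, F p.1 p.2 a2 b2 ≠ 0
  have cSA : SA.card ≤ y1 * c := card_pairs_le' (fun a b => a ∈ BA b) c fun b => by
    refine le_trans (card_le_card ?_) ((hBA1 b).trans hc1)
    intro a ha
    exact (mem_filter.1 ha).2
  have cSB : SB.card ≤ x1 * c := card_pairs_le (fun a b => b ∈ BB a) c fun a => by
    refine le_trans (card_le_card ?_) ((hBB1 a).trans hc2)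
    intro b hb
    exact (mem_filter.1 hb).2
  have cNZ : NZ.card ≤ c * (τ * max x1 y1) :=
    (few_rows hd F g h hF h1).trans (Nat.mul_le_mul_right _ hc5)
  have cI : (SA ∩ SB).card ≤ min x1 y1 * c := by
    rw [min_mul_nat]
    exact le_min ((card_le_card inter_subset_right).trans cSB)
      ((card_le_card inter_subset_left).trans cSA)
  have hw : ∀ p : A1 × B1, (univ.filter fun q : A2 × B2 => F p.1 p.2 q.1 q.2 ≠ 0).card ≤
      (if p ∈ SA ∩ SB then τ * max x2 y2 else 0) + (if p ∈ SA then y2 * c else 0) +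
      (if p ∈ SB then x2 * c else 0) + (if p ∈ NZ then min x2 y2 * c else 0) := by
    intro p
    by_cases hpA : p ∈ SA
    · by_cases hpB : p ∈ SB
      · have h3 := h2 p.1 p.2
        rw [if_pos (mem_inter.2 ⟨hpA, hpB⟩)]
        omega
      · have h3 : (univ.filter fun q : A2 × B2 => F p.1 p.2 q.1 q.2 ≠ 0).card ≤ y2 * c :=
          card_pairs_le' (fun a b => F p.1 p.2 a b ≠ 0) c fun b =>
            (hBB2 p.1 p.2 (fun hh => hpB (mem_filter.2 ⟨mem_univ _, hh⟩)) b).trans hc4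
        rw [if_pos hpA]
        omega
    · have h3 : (univ.filter fun q : A2 × B2 => F p.1 p.2 q.1 q.2 ≠ 0).card ≤ x2 * c :=
        card_pairs_le (fun a b => F p.1 p.2 a b ≠ 0) c fun a =>
          (hBA2 p.2 p.1 (fun hh => hpA (mem_filter.2 ⟨mem_univ _, hh⟩)) a).trans hc3
      by_cases hpB : p ∈ SB
      · rw [if_pos hpB]
        omega
      · have h4 : (univ.filter fun q : A2 × B2 => F p.1 p.2 q.1 q.2 ≠ 0).card ≤ y2 * c :=
          card_pairs_le' (fun a b => F p.1 p.2 a b ≠ 0) c fun b =>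
            (hBB2 p.1 p.2 (fun hh => hpB (mem_filter.2 ⟨mem_univ _, hh⟩)) b).trans hc4
        by_cases hpN : p ∈ NZ
        · rw [if_pos hpN]
          have h5 : (univ.filter fun q : A2 × B2 => F p.1 p.2 q.1 q.2 ≠ 0).card ≤
              min x2 y2 * c := by
            rw [min_mul_nat]
            exact le_min h3 h4
          omega
        · have h5 : (univ.filter fun q : A2 × B2 => F p.1 p.2 q.1 q.2 ≠ 0) = ∅ := by
            rw [filter_eq_empty_iff]
            intro q _ hq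
            exact hpN (mem_filter.2 ⟨mem_univ _, q.1, q.2, hq⟩)
          rw [h5, card_empty]
          exact Nat.zero_le _
  have htot : (univ.filter fun z : (A1 × B1) × (A2 × B2) =>
      F z.1.1 z.1.2 z.2.1 z.2.2 ≠ 0).card =
      ∑ p : A1 × B1, (univ.filter fun q : A2 × B2 => F p.1 p.2 q.1 q.2 ≠ 0).card := by
    rw [card_filter, Fintype.sum_prod_type]
    exact sum_congr rfl fun a _ => (card_filter _ _).symm
  have hs1 : ∀ (S : Finset (A1 × B1)) (m : ℕ), (∑ p : A1 × B1, if p ∈ S then m else 0) =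
      S.card * m := by
    intro S m
    rw [← sum_filter, filter_mem_eq_inter, univ_inter, sum_const, smul_eq_mul]
  rw [htot]
  refine (sum_le_sum fun p _ => hw p).trans ?_
  rw [sum_add_distrib, sum_add_distrib, sum_add_distrib, hs1, hs1, hs1, hs1]
  set Z := max (x1 * x2) (y1 * y2) with hZ
  have m1 : min x1 y1 * max x2 y2 ≤ Z := by
    rcases le_total x2 y2 with hh | hh
    · rw [max_eq_right hh]
      exact (Nat.mul_le_mul_right _ (min_le_right _ _)).trans (le_max_right _ _)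
    · rw [max_eq_left hh]
      exact (Nat.mul_le_mul_right _ (min_le_left _ _)).trans (le_max_left _ _)
  have m2 : max x1 y1 * min x2 y2 ≤ Z := by
    rcases le_total x1 y1 with hh | hh
    · rw [max_eq_right hh]
      exact (Nat.mul_le_mul_left _ (min_le_right _ _)).trans (le_max_right _ _)
    · rw [max_eq_left hh]
      exact (Nat.mul_le_mul_left _ (min_le_left _ _)).trans (le_max_left _ _)
  have hcc : c ≤ c ^ 2 := Nat.le_self_pow (by norm_num) _
  have e1 : (SA ∩ SB).card * (τ * max x2 y2) ≤ c ^ 2 * τ * Z := by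
    calc (SA ∩ SB).card * (τ * max x2 y2) ≤ (min x1 y1 * c) * (τ * max x2 y2) :=
          Nat.mul_le_mul_right _ cI
      _ = c * τ * (min x1 y1 * max x2 y2) := by ring
      _ ≤ c ^ 2 * τ * Z := Nat.mul_le_mul (Nat.mul_le_mul_right _ hcc) m1
  have e2 : SA.card * (y2 * c) ≤ c ^ 2 * τ * Z := by
    calc SA.card * (y2 * c) ≤ (y1 * c) * (y2 * c) := Nat.mul_le_mul_right _ cSA
      _ = c ^ 2 * 1 * (y1 * y2) := by ring
      _ ≤ c ^ 2 * τ * Z := Nat.mul_le_mul (Nat.mul_le_mul_left _ hτ) (le_max_right _ _)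
  have e3 : SB.card * (x2 * c) ≤ c ^ 2 * τ * Z := by
    calc SB.card * (x2 * c) ≤ (x1 * c) * (x2 * c) := Nat.mul_le_mul_right _ cSB
      _ = c ^ 2 * 1 * (x1 * x2) := by ring
      _ ≤ c ^ 2 * τ * Z := Nat.mul_le_mul (Nat.mul_le_mul_left _ hτ) (le_max_left _ _)
  have e4 : NZ.card * (min x2 y2 * c) ≤ c ^ 2 * τ * Z := by
    calc NZ.card * (min x2 y2 * c) ≤ (c * (τ * max x1 y1)) * (min x2 y2 * c) :=
          Nat.mul_le_mul_right _ cNZ
      _ = c ^ 2 * τ * (max x1 y1 * min x2 y2) := by ring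
      _ ≤ c ^ 2 * τ * Z := Nat.mul_le_mul_left _ m2
  calc _ ≤ c ^ 2 * τ * Z + c ^ 2 * τ * Z + c ^ 2 * τ * Z + c ^ 2 * τ * Z := by
        gcongr
    _ = 4 * c ^ 2 * τ * Z := by ring

end

end Pool.Agent.R756.KT
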